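import Pool.Agent.Helper52.BP.Sheet

/-! Rows GREEDY and CHUNK of the project BP. -/

set_option autoImplicit false

namespace Pool.Helper52.BP

open Finset

theorem st_GREEDY : ST_GREEDY := by
  intro n R q
  induction q with
  | zero =>
    intro G F _ _ hF
    refine ⟨Fin.elim0, fun j => j.elim0, fun X hX => ?_⟩
    have : F.card = 0 := by simpa using hF
    rw [Finset.card_eq_zero] at this
    subst this
    exact absurd hX (Finset.notMem_empty X)
  | succ q ih =>
    intro G F hG hR hF
    have hR0 : 0 < R := by
      rcases Nat.eq_zero_or_pos R with h | h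
      · subst h
        simp at hF
      · exact h
    have hdc : ∑ g ∈ G, (F.filter (fun X => g ∈ X)).card = ∑ X ∈ F, (G ∩ X).card := by
      simp_rw [Finset.card_filter]
      rw [Finset.sum_comm]
      refine Finset.sum_congr rfl fun X _ => ?_
      rw [← Finset.card_filter]
      congr 1
    have hsum : R * ∑ g ∈ G, (F.filter (fun X => g ∈ X)).card ≤ G.card * F.card := by
      rw [hdc, Finset.mul_sum, mul_comm G.card]
      calc ∑ X ∈ F, R * (G ∩ X).card ≤ ∑ X ∈ F, G.card := Finset.sum_le_sum hR
        _ = F.card * G.card := by rw [Finset.sum_const, smul_eq_mul]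
    obtain ⟨g, hg, hgR⟩ : ∃ g ∈ G, R * (F.filter (fun X => g ∈ X)).card ≤ F.card := by
      by_contra hcon
      push Not at hcon
      have h2 : ∑ g ∈ G, F.card < ∑ g ∈ G, R * (F.filter (fun X => g ∈ X)).card :=
        Finset.sum_lt_sum_of_nonempty hG hcon
      rw [Finset.sum_const, smul_eq_mul, ← Finset.mul_sum] at h2
      exact absurd hsum (not_le.mpr h2)
    have hlt : (F.filter (fun X => g ∈ X)).card < R ^ q := by
      have h3 : R * (F.filter (fun X => g ∈ X)).card < R * R ^ q := by
        rw [← pow_succ']
        exact lt_of_le_of_lt hgR hF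
      exact Nat.lt_of_mul_lt_mul_left h3
    obtain ⟨p, hp1, hp2⟩ := ih G (F.filter (fun X => g ∈ X)) hG
      (fun X hX => hR X (Finset.mem_of_mem_filter X hX)) hlt
    refine ⟨Fin.cons g p, fun j => ?_, fun X hX => ?_⟩
    · refine Fin.cases ?_ (fun k => ?_) j
      · simpa using hg
      · simpa using hp1 k
    · by_cases hgX : g ∈ X
      · obtain ⟨j, hj⟩ := hp2 X (Finset.mem_filter.mpr ⟨hX, hgX⟩)
        exact ⟨j.succ, by simpa using hj⟩
      · exact ⟨0, by simpa using hgX⟩

theorem st_CHUNK : ST_CHUNK := by
  intro n q s C hC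
  have h := (Finset.all_card_le_biUnion_card_iff_exists_injective
    (fun p : Fin q × Fin s => C p.1)).mp ?_
  · obtain ⟨e, he1, he2⟩ := h
    exact ⟨e, he1, he2⟩
  · intro S
    rcases S.eq_empty_or_nonempty with rfl | ⟨p, hp⟩
    · simp
    · calc S.card ≤ (univ : Finset (Fin q × Fin s)).card := Finset.card_le_univ S
        _ = q * s := by simp
        _ ≤ (C p.1).card := hC p.1
        _ ≤ _ := Finset.card_le_card (Finset.subset_biUnion_of_mem
            (fun p : Fin q × Fin s => C p.1) hp)

end Pool.Helper52.BP
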